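import Mathlib

set_option autoImplicit false

namespace Pool.Agent.H.MP_8bc176_co

open Module Filter Topology Finset

variable {E : Type} [AddCommGroup E] [Module ℝ E]

/-- Generic points of `A`: outside finitely many hyperplanes not containing `A`. -/
def gen (A : Set E) : Filter E where
  sets := {U | ∃ I : Set ((E →ₗ[ℝ] ℝ) × ℝ), I.Finite ∧ (∀ l ∈ I, ∃ a ∈ A, l.1 a ≠ l.2) ∧
    ∀ x ∈ A, (∀ l ∈ I, l.1 x ≠ l.2) → x ∈ U}
  univ_sets := ⟨∅, Set.finite_empty, by simp, by simp⟩
  sets_of_superset := by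
    rintro U W ⟨I, h1, h2, h3⟩ h
    exact ⟨I, h1, h2, fun x hx hl => h (h3 x hx hl)⟩
  inter_sets := by
    rintro U W ⟨I, h1, h2, h3⟩ ⟨J, j1, j2, j3⟩
    refine ⟨I ∪ J, h1.union j1, fun l hl => hl.elim (h2 l) (j2 l), fun x hx hl =>
      ⟨h3 x hx fun l h => hl l (Or.inl h), j3 x hx fun l h => hl l (Or.inr h)⟩⟩

lemma ev_iff {A : Set E} {p : E → Prop} : (∀ᶠ x in gen A, p x) ↔
    ∃ I : Set ((E →ₗ[ℝ] ℝ) × ℝ), I.Finite ∧ (∀ l ∈ I, ∃ a ∈ A, l.1 a ≠ l.2) ∧
      ∀ x ∈ A, (∀ l ∈ I, l.1 x ≠ l.2) → p x := Iff.rfl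

lemma ev_mem (A : Set E) : ∀ᶠ x in gen A, x ∈ A :=
  ev_iff.mpr ⟨∅, Set.finite_empty, by simp, fun x hx _ => hx⟩

lemma ev_ne {A : Set E} (f : E →ₗ[ℝ] ℝ) (c : ℝ) {a : E} (ha : a ∈ A) (h : f a ≠ c) :
    ∀ᶠ x in gen A, f x ≠ c :=
  ev_iff.mpr ⟨{(f, c)}, Set.finite_singleton _, by simpa using ⟨a, ha, h⟩,
    fun x _ hl => hl (f, c) rfl⟩

lemma sepf (H : AffineSubspace ℝ E) {v : E} (hv : v ∉ H) :
    ∃ (f : E →ₗ[ℝ] ℝ) (c : ℝ), f v - c = 1 ∧ ∀ x ∈ H, f x - c = 0 := by
  rcases H.eq_bot_or_nonempty with rfl | ⟨p, hp⟩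
  · exact ⟨0, -1, by simp, fun x hx => absurd hx (AffineSubspace.notMem_bot ℝ E x)⟩
  have : v - p ∉ H.direction := fun h => hv ((AffineSubspace.vsub_right_mem_direction_iff_mem hp v).mp h)
  obtain ⟨f, h1, h2⟩ := Submodule.exists_dual_map_eq_bot_of_notMem this inferInstance
  have h3 : ∀ x ∈ H, f x = f p := fun x hx => by
    have : f (x - p) ∈ H.direction.map f :=
      Submodule.mem_map_of_mem (AffineSubspace.vsub_mem_direction hx hp)
    rw [h2, Submodule.mem_bot, map_sub] at this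
    linarith
  refine ⟨(f (v - p))⁻¹ • f, (f (v - p))⁻¹ * f p, ?_, fun x hx => ?_⟩
  · simp only [LinearMap.smul_apply, smul_eq_mul]
    rw [← mul_sub, ← map_sub, inv_mul_cancel₀ h1]
  · simp [h3 x hx]

open Classical in
lemma star_count {ι : Type} (T : Finset ι) (ξ ν : ι → ℝ) (hν : ∑ t ∈ T, ν t = 1)
    (hξ : ∀ t ∈ T, ξ t ≠ 0)
    (hd : ∀ t ∈ T, ∀ s ∈ T, ν t ≠ 0 → ν s ≠ 0 → ξ t / ν t = ξ s / ν s → t = s) :
    (if ∀ s ∈ T, 0 ≤ ξ s then (1 : ℝ) else 0) =
      ∑ t ∈ T.filter (fun t => ν t ≠ 0), (if 0 < ν t then (1 : ℝ) else -1) *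
        (if 0 ≤ ξ t / ν t ∧ ∀ s ∈ T, 0 ≤ ξ s - ξ t / ν t * ν s then 1 else 0) := by
  let Pz : ℝ → Prop := fun l => 0 ≤ l ∧ ∀ s ∈ T, 0 ≤ ξ s - l * ν s
  have pos : ∀ s l, 0 < ν s → (0 ≤ ξ s - l * ν s ↔ l ≤ ξ s / ν s) := fun s l h => by
    rw [le_div_iff₀ h, sub_nonneg]
  have neg : ∀ s l, ν s < 0 → (0 ≤ ξ s - l * ν s ↔ ξ s / ν s ≤ l) := fun s l h => by
    rw [div_le_iff_of_neg h, sub_nonneg]
  have hP : (T.filter fun t => 0 < ν t).Nonempty := by
    by_contra hc
    have : ∑ t ∈ T, ν t ≤ 0 := sum_nonpos fun t ht => not_lt.mp fun h =>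
      hc ⟨t, mem_filter.mpr ⟨ht, h⟩⟩
    linarith
  obtain ⟨u, hu, humin⟩ := exists_min_image _ (fun t => ξ t / ν t) hP
  obtain ⟨huT, hu0⟩ := mem_filter.mp hu
  rw [← sum_filter_add_sum_filter_not _ (fun t => 0 < ν t)]
  have e1 : ∑ t ∈ (T.filter (fun t => ν t ≠ 0)).filter (fun t => 0 < ν t),
      (if 0 < ν t then (1 : ℝ) else -1) * (if Pz (ξ t / ν t) then 1 else 0) =
      if Pz (ξ u / ν u) then 1 else 0 := by
    rw [sum_eq_single u]
    · simp [hu0]
    · intro t ht htu
      simp only [mem_filter] at ht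
      rw [if_neg (c := Pz _), mul_zero]
      intro h
      exact htu (hd t ht.1.1 u huT ht.1.2 hu0.ne' (le_antisymm ((pos u _ hu0).mp (h.2 u huT))
        (humin t (mem_filter.mpr ⟨ht.1.1, ht.2⟩))))
    · intro h; exact absurd (by simp [huT, hu0, hu0.ne']) h
  have hiP : ∀ l, l ≤ ξ u / ν u → ∀ s ∈ T, 0 < ν s → 0 ≤ ξ s - l * ν s := fun l hl s hs h =>
    (pos s l h).mpr (hl.trans (humin s (mem_filter.mpr ⟨hs, h⟩)))
  have top : (∀ s ∈ T, 0 ≤ ξ s) → Pz (ξ u / ν u) := by
    intro h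
    have h0 : 0 ≤ ξ u / ν u := div_nonneg (h u huT) hu0.le
    refine ⟨h0, fun s hs => ?_⟩
    by_cases hs0 : 0 < ν s
    · exact hiP _ le_rfl s hs hs0
    · nlinarith [h s hs, mul_nonneg h0 (neg_nonneg.mpr (not_lt.mp hs0))]
  rw [e1]
  rcases (T.filter fun t => ν t < 0).eq_empty_or_nonempty with hN | hN
  · rw [sum_eq_zero, add_zero]
    · refine if_congr ⟨top, fun h s hs => ?_⟩ rfl rfl
      have : 0 ≤ ν s := not_lt.mp fun hc => by
        have : s ∈ T.filter fun t => ν t < 0 := mem_filter.mpr ⟨hs, hc⟩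
        simp [hN] at this
      nlinarith [h.2 s hs, mul_nonneg h.1 this]
    · intro t ht
      simp only [mem_filter] at ht
      have : t ∈ T.filter fun t => ν t < 0 :=
        mem_filter.mpr ⟨ht.1.1, lt_of_le_of_ne (not_lt.mp ht.2) ht.1.2⟩
      simp [hN] at this
  obtain ⟨w, hw, hwmax⟩ := exists_max_image _ (fun t => ξ t / ν t) hN
  obtain ⟨hwT, hw0⟩ := mem_filter.mp hw
  have e2 : ∑ t ∈ (T.filter (fun t => ν t ≠ 0)).filter (fun t => ¬ 0 < ν t),
      (if 0 < ν t then (1 : ℝ) else -1) * (if Pz (ξ t / ν t) then 1 else 0) =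
      -(if Pz (ξ w / ν w) then 1 else 0) := by
    rw [sum_eq_single w]
    · rw [if_neg (not_lt.mpr hw0.le), neg_one_mul]
    · intro t ht htw
      simp only [mem_filter] at ht
      rw [if_neg (c := Pz _), mul_zero]
      intro h
      exact htw (hd t ht.1.1 w hwT ht.1.2 hw0.ne (le_antisymm
        (hwmax t (mem_filter.mpr ⟨ht.1.1, lt_of_le_of_ne (not_lt.mp ht.2) ht.1.2⟩))
        ((neg w _ hw0).mp (h.2 w hwT))))
    · intro h; exact absurd (by simp [hwT, hw0.le, hw0.ne]) h
  rw [e2]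
  have loN : ∀ l, ξ w / ν w ≤ l → ∀ s ∈ T, ν s < 0 → 0 ≤ ξ s - l * ν s := fun l hl s hs h =>
    (neg s l h).mpr ((hwmax s (mem_filter.mpr ⟨hs, h⟩)).trans hl)
  by_cases h0 : ∀ s ∈ T, 0 ≤ ξ s
  · rw [if_pos h0, if_pos (top h0), if_neg]
    · simp
    · intro h
      have : ξ w / ν w < 0 :=
        div_neg_of_pos_of_neg (lt_of_le_of_ne (h0 w hwT) (hξ w hwT).symm) hw0
      linarith [h.1]
  · rw [if_neg h0, if_congr (Q := Pz (ξ w / ν w)) ?_ rfl rfl]
    · simp
    push Not at h0
    obtain ⟨s, hs, hs0⟩ := h0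
    constructor
    · intro h
      have a1 : ν s < 0 := by
        by_contra hc
        nlinarith [h.2 s hs, mul_nonneg h.1 (not_lt.mp hc)]
      have a2 : 0 < ξ s / ν s := div_pos_of_neg_of_neg hs0 a1
      have a3 := hwmax s (mem_filter.mpr ⟨hs, a1⟩)
      have a4 := (neg w _ hw0).mp (h.2 w hwT)
      refine ⟨by linarith, fun r hr => ?_⟩
      rcases lt_trichotomy (ν r) 0 with c | c | c
      · exact loN _ le_rfl r hr c
      · simpa [c] using h.2 r hr
      · exact hiP _ a4 r hr c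
    · intro h
      have a4 := (pos u _ hu0).mp (h.2 u huT)
      refine ⟨h.1.trans a4, fun r hr => ?_⟩
      rcases lt_trichotomy (ν r) 0 with c | c | c
      · exact loN _ a4 r hr c
      · simpa [c] using h.2 r hr
      · exact hiP _ le_rfl r hr c

noncomputable def ind (T : Finset E) (x : E) : ℝ :=
  (convexHull ℝ (T : Set E)).indicator (fun _ => (1 : ℝ)) x

open Classical in
noncomputable def Sx (S : Finset E) (k : ℕ) (A : AffineSubspace ℝ E) : Finset (Finset E) :=
  S.powerset.filter fun T => T.card = k + 1 ∧ affineSpan ℝ (T : Set E) = A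

lemma mem_Sx {S T : Finset E} {k : ℕ} {A : AffineSubspace ℝ E} :
    T ∈ Sx S k A ↔ T ⊆ S ∧ T.card = k + 1 ∧ affineSpan ℝ (T : Set E) = A := by
  simp [Sx]

lemma indep_iff {T : Finset E} {k : ℕ} (hc : T.card = k + 1) :
    AffineIndependent ℝ ((↑) : T → E) ↔ finrank ℝ (affineSpan ℝ (T : Set E)).direction = k := by
  rw [affineIndependent_iff_finrank_vectorSpan_eq ℝ _ (n := k) (by simpa using hc),
    direction_affineSpan, Subtype.range_coe_subtype]
  rfl

open Classical in
lemma not_mem_span {T : Finset E} (hT : AffineIndependent ℝ ((↑) : T → E)) {t : E} (ht : t ∈ T) :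
    t ∉ affineSpan ℝ ((T.erase t : Finset E) : Set E) := by
  have := hT.notMem_affineSpan_sdiff ⟨t, ht⟩ Set.univ
  convert this
  ext y
  simp only [coe_erase, Set.mem_sdiff, mem_coe, Set.mem_singleton_iff, Set.mem_image,
    Set.mem_univ, true_and, Subtype.exists, Subtype.mk.injEq, exists_and_left, exists_prop]
  constructor
  · rintro ⟨h1, h2⟩; exact ⟨y, h2, h1, rfl⟩
  · rintro ⟨a, h1, h2, rfl⟩; exact ⟨h2, h1⟩

lemma hull_nonneg (f : E →ₗ[ℝ] ℝ) (c : ℝ) {X : Set E} (h : ∀ y ∈ X, 0 ≤ f y - c) {x : E}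
    (hx : x ∈ convexHull ℝ X) : 0 ≤ f x - c := by
  have := convexHull_min (t := {y | c ≤ f y}) (fun y hy => sub_nonneg.mp (h y hy))
    (convex_halfSpace_ge f.isLinear c) hx
  exact sub_nonneg.mpr this

open Classical in
lemma bary {T : Finset E} (hT : AffineIndependent ℝ ((↑) : T → E)) :
    ∃ (f : E → E →ₗ[ℝ] ℝ) (c : E → ℝ),
      (∀ t ∈ T, ∀ s ∈ T, f t s - c t = if s = t then 1 else 0) ∧
      ∀ x ∈ affineSpan ℝ (T : Set E), ∑ t ∈ T, (f t x - c t) = 1 ∧
        ∑ t ∈ T, (f t x - c t) • t = x := by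
  have : ∀ t, ∃ (f : E →ₗ[ℝ] ℝ) (c : ℝ), t ∈ T → ∀ s ∈ T, f s - c = if s = t then 1 else 0 := by
    intro t
    by_cases ht : t ∈ T
    · obtain ⟨f, c, h1, h2⟩ := sepf _ (not_mem_span hT ht)
      refine ⟨f, c, fun _ s hs => ?_⟩
      split_ifs with h
      · rw [h, h1]
      · exact h2 s (subset_affineSpan ℝ _ (by simp [h, hs]))
    · exact ⟨0, 0, fun h => absurd h ht⟩
  choose f c h using this
  refine ⟨f, c, h, fun x hx => ?_⟩
  induction hx using affineSpan_induction' with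
  | mem s hs =>
    rw [sum_congr rfl fun t ht => h t ht s hs,
      sum_congr rfl (g := fun t => (if s = t then (1 : ℝ) else 0) • t)
        fun t ht => by rw [h t ht s hs]]
    simp [ite_smul, mem_coe.mp hs]
  | smul_vsub_vadd r u _ v _ w _ hu hv hw =>
    have e : ∀ t, f t (r • (u -ᵥ v) +ᵥ w) - c t =
        r * ((f t u - c t) - (f t v - c t)) + (f t w - c t) := fun t => by
      simp only [vsub_eq_sub, vadd_eq_add, map_add, map_smul, map_sub, smul_eq_mul]; ring
    simp only [e]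
    constructor
    · rw [sum_add_distrib, ← mul_sum, sum_sub_distrib, hu.1, hv.1, hw.1]; ring
    · simp only [add_smul, mul_smul, sum_add_distrib, ← smul_sum]
      rw [hw.2, sum_congr rfl fun t _ => sub_smul (f t u - c t) (f t v - c t) t,
        sum_sub_distrib, hu.2, hv.2]
      rfl

def Rep (F : Finset (Finset E)) (A : Set E) (g : E → ℝ) : Prop :=
  ∃ a : Finset E → ℝ, ∀ᶠ x in gen A, g x = ∑ T ∈ F, a T * ind T x

lemma Rep.sum {ι : Type} {F : Finset (Finset E)} {A : Set E} (I : Finset ι) (r : ι → ℝ)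
    (g : ι → E → ℝ) (h : ∀ i ∈ I, Rep F A (g i)) : Rep F A fun x => ∑ i ∈ I, r i * g i x := by
  classical
  choose! a ha using h
  refine ⟨fun T => ∑ i ∈ I, r i * a i T, ?_⟩
  filter_upwards [(eventually_all_finset I).mpr ha] with x hx
  rw [sum_congr rfl fun i hi => by rw [hx i hi]]
  simp only [mul_sum, sum_mul, mul_assoc]
  exact sum_comm

lemma Rep.single {F : Finset (Finset E)} {A : Set E} {T : Finset E} (hT : T ∈ F) :
    Rep F A (ind T) := by
  classical
  exact ⟨fun T' => if T' = T then 1 else 0, Eventually.of_forall fun x => by simp [hT]⟩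

open Classical in
lemma star {S T : Finset E} {k : ℕ} {A : AffineSubspace ℝ E} (hA : finrank ℝ A.direction = k)
    (hT : T ∈ Sx S k A) {v : E} (hvS : v ∈ S) (hvA : v ∈ A) :
    Rep ((Sx S k A).filter fun T => v ∈ T) A (ind T) := by
  obtain ⟨hTS, hc, hs⟩ := mem_Sx.mp hT
  subst hs
  obtain ⟨f, c, hδ, hb⟩ := bary ((indep_iff hc).mpr hA)
  let ν : E → ℝ := fun t => f t v - c t
  have hv := hb v hvA
  have hmem : ∀ t ∈ T.filter (fun t => ν t ≠ 0),
      insert v (T.erase t) ∈ (Sx S k (affineSpan ℝ (T : Set E))).filter fun T => v ∈ T := by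
    intro t ht
    obtain ⟨ht, hν⟩ := mem_filter.mp ht
    have h1 : v ∉ T.erase t := fun h => hν (by
      simp only [ν]; rw [hδ t ht v (mem_of_mem_erase h), if_neg (ne_of_mem_erase h)])
    refine mem_filter.mpr ⟨mem_Sx.mpr ⟨insert_subset hvS ((erase_subset _ _).trans hTS),
      by rw [card_insert_of_notMem h1, card_erase_of_mem ht]; omega, le_antisymm ?_ ?_⟩,
      mem_insert_self _ _⟩
    · rw [affineSpan_le]
      intro y hy
      rcases mem_insert.mp (mem_coe.mp hy) with rfl | h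
      · exact hvA
      · exact subset_affineSpan ℝ _ (mem_of_mem_erase h)
    · rw [affineSpan_le]
      intro y hy
      by_cases hyt : y = t
      · subst hyt
        set B := affineSpan ℝ ((insert v (T.erase y) : Finset E) : Set E)
        have hvB : v ∈ B := subset_affineSpan ℝ _ (by simp)
        have e : y - v = (-(ν y)⁻¹) • ∑ s ∈ T.erase y, ν s • (s - v) := by
          have e1 : ∑ s ∈ T, ν s • (s - v) = 0 := by
            simp only [smul_sub, sum_sub_distrib, ← sum_smul]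
            rw [hv.1, hv.2]; simp
          rw [← add_sum_erase _ _ ht] at e1
          rw [eq_neg_of_add_eq_zero_right e1, smul_neg, neg_smul, neg_neg, smul_smul,
            inv_mul_cancel₀ hν, one_smul]
        refine (AffineSubspace.vsub_right_mem_direction_iff_mem hvB y).mp ?_
        rw [vsub_eq_sub, e]
        exact Submodule.smul_mem _ _ (Submodule.sum_mem _ fun s hs => Submodule.smul_mem _ _
          (AffineSubspace.vsub_mem_direction (subset_affineSpan ℝ _ (by simp [mem_erase.mp hs]))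
            hvB))
      · exact subset_affineSpan ℝ _ (by simp [hyt, mem_coe.mp hy])
  obtain ⟨a, ha⟩ := Rep.sum (A := (affineSpan ℝ (T : Set E) : Set E)) _
    (fun t => if 0 < ν t then (1 : ℝ) else -1) (fun t => ind (insert v (T.erase t)))
    fun t ht => Rep.single (hmem t ht)
  refine ⟨a, ?_⟩
  have g1 : ∀ᶠ x in gen (affineSpan ℝ (T : Set E) : Set E), ∀ t ∈ T, f t x ≠ c t :=
    (eventually_all_finset T).mpr fun t ht => ev_ne _ _ (subset_affineSpan ℝ _ ht) fun h => by
      have := hδ t ht t ht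
      simp [h] at this
  have g2 : ∀ᶠ x in gen (affineSpan ℝ (T : Set E) : Set E), ∀ t ∈ T, ∀ s ∈ T, ν s ≠ 0 → t ≠ s →
      (ν s • f t - ν t • f s) x ≠ ν s * c t - ν t * c s :=
    (eventually_all_finset T).mpr fun t ht => (eventually_all_finset T).mpr fun s hs => by
      by_cases h : ν s ≠ 0 ∧ t ≠ s
      · refine (ev_ne (ν s • f t - ν t • f s) (ν s * c t - ν t * c s)
          (subset_affineSpan ℝ _ ht) fun hc => h.1 ?_).mono fun x hx _ _ => hx
        have e1 := hδ t ht t ht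
        have e2 := hδ s hs t ht
        simp only [if_true, if_neg h.2] at e1 e2
        simp only [LinearMap.sub_apply, LinearMap.smul_apply, smul_eq_mul] at hc
        linear_combination hc - ν s * e1 + ν t * e2
      · exact Eventually.of_forall fun x h1 h2 => absurd ⟨h1, h2⟩ h
  filter_upwards [ha, g1, g2, ev_mem _] with x hx x1 x2 hxA
  rw [← hx]
  have hxb := hb x hxA
  have := star_count T (fun t => f t x - c t) ν hv.1 (fun t ht => sub_ne_zero.mpr (x1 t ht))
    (fun t ht s hs h1 h2 h3 => by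
      by_contra hne
      apply x2 t ht s hs h2 hne
      rw [div_eq_div_iff h1 h2] at h3
      simp only [LinearMap.sub_apply, LinearMap.smul_apply, smul_eq_mul]
      linarith)
  convert this using 1
  · simp only [ind, Set.indicator_apply]
    refine if_congr ⟨fun h s hs => hull_nonneg _ _ (fun y hy => ?_) h, fun h => ?_⟩ rfl rfl
    · rw [hδ s hs y hy]; split_ifs <;> norm_num
    · rw [← hxb.2]
      exact (convex_convexHull ℝ _).sum_mem h hxb.1 fun s hs => subset_convexHull ℝ _ hs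
  · refine sum_congr rfl fun t ht => ?_
    obtain ⟨ht, hν⟩ := mem_filter.mp ht
    congr 1
    simp only [ind, Set.indicator_apply]
    refine if_congr ⟨fun h => ⟨?_, fun s hs => ?_⟩, fun h => ?_⟩ rfl rfl
    · have := hull_nonneg ((ν t)⁻¹ • f t) ((ν t)⁻¹ * c t) (fun y hy => by
        simp only [LinearMap.smul_apply, smul_eq_mul, ← mul_sub]
        rcases mem_insert.mp (mem_coe.mp hy) with rfl | h
        · rw [inv_mul_cancel₀ hν]; norm_num
        · rw [hδ t ht y (mem_of_mem_erase h), if_neg (ne_of_mem_erase h)]; simp) h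
      simp only [LinearMap.smul_apply, smul_eq_mul, ← mul_sub] at this
      rwa [div_eq_inv_mul]
    · have := hull_nonneg (f s - (ν s / ν t) • f t) (c s - ν s / ν t * c t) (fun y hy => by
        simp only [LinearMap.sub_apply, LinearMap.smul_apply, smul_eq_mul]
        have e : f s y - ν s / ν t * f t y - (c s - ν s / ν t * c t) =
          (f s y - c s) - ν s / ν t * (f t y - c t) := by ring
        rw [e]
        rcases mem_insert.mp (mem_coe.mp hy) with rfl | h
        · exact le_of_eq (by change 0 = ν s - ν s / ν t * ν t; field_simp; ring)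
        · rw [hδ t ht y (mem_of_mem_erase h), if_neg (ne_of_mem_erase h),
            hδ s hs y (mem_of_mem_erase h)]
          split_ifs <;> norm_num) h
      simp only [LinearMap.sub_apply, LinearMap.smul_apply, smul_eq_mul] at this
      convert this using 1
      ring
    · set l := (f t x - c t) / ν t with hl
      have h1 : v ∉ T.erase t := fun h => hν (by
        simp only [ν]; rw [hδ t ht v (mem_of_mem_erase h), if_neg (ne_of_mem_erase h)])
      have z : f t x - c t - l * ν t = 0 := by rw [hl]; field_simp; ring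
      have e : x = ∑ s ∈ insert v (T.erase t),
          (if s = v then l else f s x - c s - l * ν s) • s := by
        rw [sum_insert h1, if_pos rfl, sum_congr rfl (g := fun s => (f s x - c s - l * ν s) • s)
          fun s hs => by rw [if_neg fun (h : s = v) => h1 (h ▸ hs)],
          sum_erase _ (by rw [z, zero_smul])]
        simp only [sub_smul (f _ x - c _), mul_smul, sum_sub_distrib, ← smul_sum]
        rw [hxb.2, hv.2]; abel
      rw [e]
      refine (convex_convexHull ℝ _).sum_mem (fun s hs => ?_) ?_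
        fun s hs => subset_convexHull ℝ _ hs
      · split_ifs with hsv
        · exact h.1
        · exact h.2 s (mem_of_mem_erase ((mem_insert.mp hs).resolve_left hsv))
      · rw [sum_insert h1, if_pos rfl, sum_congr rfl (g := fun s => f s x - c s - l * ν s)
          fun s hs => by rw [if_neg fun (h : s = v) => h1 (h ▸ hs)], sum_erase (f := fun s => f s x - c s - l * ν s) _ z,
          sum_sub_distrib, ← mul_sum, hxb.1, hv.1]
        ring

open Classical in
lemma ray_mem {σ : Finset E} (hσ : σ.Nonempty) {v p : E} (f : E →ₗ[ℝ] ℝ) (c : ℝ)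
    (h1 : f v - c = 1) (h0 : ∀ x ∈ affineSpan ℝ (σ : Set E), f x - c = 0) (hpv : p ≠ v)
    {t : ℝ} (ht : t ≠ 0) :
    v + t • (p - v) ∈ convexHull ℝ ((insert v σ : Finset E) : Set E) ↔
      0 < t * (1 - (f p - c)) ∧ t * (1 - (f p - c)) ≤ 1 ∧
        v + (1 - (f p - c))⁻¹ • (p - v) ∈ convexHull ℝ (σ : Set E) := by
  rw [coe_insert, convexHull_insert (by simpa using hσ)]
  simp only [convexJoin_singleton_left, Set.mem_iUnion, segment_eq_image', Set.mem_image,
    exists_prop]
  set κ := 1 - (f p - c) with hκ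
  constructor
  · rintro ⟨q, hq, s, ⟨s0, s1⟩, hs⟩
    have hs' : s • (q - v) = t • (p - v) := add_left_cancel hs
    have e := congrArg f hs'
    simp only [map_smul, map_sub, smul_eq_mul] at e
    have hq0 := h0 q (convexHull_subset_affineSpan _ hq)
    have e2 : s = t * κ := by rw [hκ]; linear_combination -e + (t - s) * h1 + s * hq0
    have s2 : s ≠ 0 := by
      rintro rfl
      rw [zero_smul, eq_comm, smul_eq_zero] at hs'
      exact hs'.elim ht fun h => hpv (sub_eq_zero.mp h)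
    have k0 : κ ≠ 0 := fun h => s2 (by rw [e2, h, mul_zero])
    refine ⟨e2 ▸ lt_of_le_of_ne s0 s2.symm, e2 ▸ s1, ?_⟩
    convert hq using 1
    have : κ • (q - v) = p - v := by
      apply smul_right_injective E ht
      simp only [smul_smul, ← e2, hs']
    rw [← this, smul_smul, inv_mul_cancel₀ k0, one_smul]; abel
  · rintro ⟨a1, a2, a3⟩
    have k0 : κ ≠ 0 := fun h => by rw [h, mul_zero] at a1; exact lt_irrefl _ a1
    refine ⟨_, a3, t * κ, ⟨a1.le, a2⟩, ?_⟩
    rw [add_sub_cancel_left, smul_smul, mul_assoc, mul_inv_cancel₀ k0, mul_one]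

lemma decomp {H : AffineSubspace ℝ E} {v p0 x : E} (hp0 : p0 ∈ H) (f : E →ₗ[ℝ] ℝ) (c : ℝ)
    (h1 : f v - c = 1) (h0 : ∀ x ∈ H, f x - c = 0)
    (hx : x ∈ affineSpan ℝ (insert v (H : Set E))) :
    ∃ q ∈ H, x = (f x - c) • (v - p0) + q := by
  obtain ⟨r, q, hq, rfl⟩ := (AffineSubspace.mem_affineSpan_insert_iff hp0 v x).mp hx
  refine ⟨q, hq, ?_⟩
  have : f (r • (v -ᵥ p0) +ᵥ q) - c = r := by
    simp only [vsub_eq_sub, vadd_eq_add, map_add, map_smul, map_sub, smul_eq_mul]
    linear_combination r * h1 - r * h0 p0 hp0 + h0 q hq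
  rw [this]; rfl

lemma pull {H : AffineSubspace ℝ E} {v p0 : E} (hp0 : p0 ∈ H) (hv : v ∉ H) {Q : E → Prop}
    (hQ : ∀ᶠ p in gen (H : Set E), Q p) :
    ∀ᶠ x in gen (affineSpan ℝ (insert v (H : Set E)) : Set E),
      ∃ t : ℝ, ∃ p ∈ H, t ≠ 0 ∧ x = v + t • (p - v) ∧ Q p := by
  obtain ⟨f, c, h1, h0⟩ := sepf H hv
  obtain ⟨I, i1, i2, i3⟩ := ev_iff.mp hQ
  have sub : ∀ a ∈ H, a ∈ affineSpan ℝ (insert v (H : Set E)) := fun a ha =>
    subset_affineSpan ℝ _ (Set.mem_insert_of_mem _ ha)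
  have g1 : ∀ᶠ x in gen (affineSpan ℝ (insert v (H : Set E)) : Set E), ∀ l ∈ I,
      (l.1 - (l.1 v - l.2) • f) x ≠ l.1 v - (1 + c) * (l.1 v - l.2) :=
    (eventually_all_finite i1).mpr fun l hl => by
      obtain ⟨a, ha, hal⟩ := i2 l hl
      refine ev_ne _ _ (sub a ha) fun h => hal ?_
      simp only [LinearMap.sub_apply, LinearMap.smul_apply, smul_eq_mul] at h
      linear_combination h + (l.1 v - l.2) * h0 a ha
  filter_upwards [g1, ev_ne f (c + 1) (sub p0 hp0) (fun h => by linarith [h0 p0 hp0]),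
    ev_mem _] with x x1 x2 hx
  obtain ⟨q, hq, e⟩ := decomp hp0 f c h1 h0 hx
  set r := f x - c with hr
  have t0 : 1 - r ≠ 0 := fun h => x2 (by linarith)
  have hp : (1 - r)⁻¹ • (q - p0) + p0 ∈ H := H.smul_vsub_vadd_mem _ hq hp0 hp0
  have e2 : x = v + (1 - r) • (((1 - r)⁻¹ • (q - p0) + p0) - v) := by
    rw [add_sub_assoc, smul_add, smul_smul, mul_inv_cancel₀ t0, one_smul, e]
    module
  refine ⟨1 - r, _, hp, t0, e2, i3 _ hp fun l hl h => x1 l hl ?_⟩
  have := congrArg l.1 e2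
  rw [map_add, map_smul, map_sub, h] at this
  simp only [LinearMap.sub_apply, LinearMap.smul_apply, smul_eq_mul] at this ⊢
  linear_combination this - (l.1 v - l.2) * hr

lemma push {H : AffineSubspace ℝ E} {v p0 : E} (hp0 : p0 ∈ H) (hv : v ∉ H) {R : E → Prop}
    (hR : ∀ᶠ x in gen (affineSpan ℝ (insert v (H : Set E)) : Set E), R x) :
    ∀ᶠ p in gen (H : Set E), ∀ᶠ t : ℝ in cofinite, R (v + t • (p - v)) := by
  obtain ⟨f, c, h1, h0⟩ := sepf H hv
  obtain ⟨I, i1, i2, i3⟩ := ev_iff.mp hR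
  have g1 : ∀ᶠ p in gen (H : Set E), ∀ l ∈ I, l.1 v = l.2 → l.1 p ≠ l.2 :=
    (eventually_all_finite i1).mpr fun l hl => by
      by_cases h : l.1 v = l.2
      · have : ∃ a ∈ H, l.1 a ≠ l.2 := by
          by_contra hc
          push Not at hc
          obtain ⟨a, ha, hal⟩ := i2 l hl
          obtain ⟨q, hq, e⟩ := decomp hp0 f c h1 h0 ha
          apply hal
          rw [e]; simp [h, hc p0 hp0, hc q hq]
        obtain ⟨a, ha, hal⟩ := this
        exact (ev_ne _ _ ha hal).mono fun x hx _ => hx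
      · exact Eventually.of_forall fun x h' => absurd h' h
  filter_upwards [g1, ev_mem _] with p hp hpH
  have : ∀ᶠ t : ℝ in cofinite, ∀ l ∈ I, l.1 (v + t • (p - v)) ≠ l.2 :=
    (eventually_all_finite i1).mpr fun l hl => by
      rw [eventually_cofinite]
      refine Set.Subsingleton.finite fun s hs t ht => ?_
      simp only [Set.mem_ofPred_eq, map_add, map_smul, map_sub, smul_eq_mul, not_not] at hs ht
      by_contra hst
      have e : l.1 p - l.1 v = 0 := by
        apply mul_left_cancel₀ (sub_ne_zero.2 hst); linarith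
      rw [e] at hs
      exact hp l hl (by linarith) (by linarith)
  refine this.mono fun t ht => i3 _ ?_ ht
  have := (affineSpan ℝ (insert v (H : Set E))).smul_vsub_vadd_mem t
    (subset_affineSpan ℝ _ (Set.mem_insert_of_mem _ hpH))
    (subset_affineSpan ℝ _ (Set.mem_insert v _)) (subset_affineSpan ℝ _ (Set.mem_insert v _))
  rw [add_comm]; exact this

open Classical in
theorem main (S : Finset E) (k : ℕ) : ∀ A : AffineSubspace ℝ E, finrank ℝ A.direction = k →
    ∀ c : Finset E → ℝ,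
      (∀ᶠ x in gen (A : Set E), ∃ z : ℤ, ∑ T ∈ Sx S k A, c T * ind T x = z) →
      ∃ n : Finset E → ℤ, ∀ᶠ x in gen (A : Set E),
        ∑ T ∈ Sx S k A, c T * ind T x = ∑ T ∈ Sx S k A, (n T : ℝ) * ind T x := by
  induction k with
  | zero =>
    intro A _ c h
    rcases (Sx S 0 A).eq_empty_or_nonempty with h0 | ⟨T, hT⟩
    · exact ⟨0, by simp [h0]⟩
    obtain ⟨-, hc, hs⟩ := mem_Sx.mp hT
    obtain ⟨a, rfl⟩ := card_eq_one.mp hc
    have hA : ∀ x, x ∈ A ↔ x = a := fun x => by
      rw [← hs, coe_singleton, AffineSubspace.mem_affineSpan_singleton]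
    have hS : Sx S 0 A = {{a}} := by
      refine eq_singleton_iff_unique_mem.mpr ⟨hT, fun T' hT' => ?_⟩
      obtain ⟨-, hc', hs'⟩ := mem_Sx.mp hT'
      obtain ⟨b, rfl⟩ := card_eq_one.mp hc'
      rw [(hA b).mp (hs' ▸ subset_affineSpan ℝ _ (by simp))]
    obtain ⟨I, i1, i2, i3⟩ := ev_iff.mp h
    obtain ⟨z, hz⟩ := i3 a ((hA a).mpr rfl) fun l hl => by
      obtain ⟨b, hb, h⟩ := i2 l hl
      rwa [(hA b).mp hb] at h
    refine ⟨fun _ => z, Eventually.of_forall fun x => ?_⟩
    rw [hS, sum_singleton] at hz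
    simp only [ind, coe_singleton, convexHull_singleton, Set.indicator_of_mem (Set.mem_singleton a),
      mul_one] at hz
    simp [hS, hz]
  | succ k ih =>
    intro A hA c h
    rcases (Sx S (k + 1) A).eq_empty_or_nonempty with h0 | ⟨T0, hT0⟩
    · exact ⟨0, by simp [h0]⟩
    obtain ⟨v, hv0⟩ : T0.Nonempty := card_pos.mp (by rw [(mem_Sx.mp hT0).2.1]; omega)
    have hvS : v ∈ S := (mem_Sx.mp hT0).1 hv0
    have hvA : v ∈ A := (mem_Sx.mp hT0).2.2 ▸ subset_affineSpan ℝ _ hv0
    set Sv := (Sx S (k + 1) A).filter fun T => v ∈ T with hSv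
    obtain ⟨a, ha⟩ := Rep.sum (F := Sv) (A := (A : Set E)) (Sx S (k + 1) A) c ind
      fun T hT => star hA hT hvS hvA
    let sp : Finset E → AffineSubspace ℝ E := fun T => affineSpan ℝ ((T.erase v : Finset E) : Set E)
    -- facts about the hyperplanes
    have hH : ∀ T ∈ Sv, v ∉ sp T ∧ affineSpan ℝ (insert v (sp T : Set E)) = A ∧
        finrank ℝ (sp T).direction = k ∧ T.erase v ∈ Sx S k (sp T) ∧ (T.erase v).Nonempty := by
      intro T hT
      obtain ⟨hT, hvT⟩ := mem_filter.mp hT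
      obtain ⟨h1, h2, h3⟩ := mem_Sx.mp hT
      have hi := (indep_iff h2).mpr (h3 ▸ hA)
      have hc : (T.erase v).card = k + 1 := by rw [card_erase_of_mem hvT]; omega
      refine ⟨not_mem_span hi hvT, ?_, (indep_iff hc).mp (hi.mono (coe_subset.mpr
        (erase_subset _ _))), mem_Sx.mpr ⟨(erase_subset _ _).trans h1, hc, rfl⟩,
        card_pos.mp (by omega)⟩
      rw [affineSpan_insert_affineSpan, ← coe_insert, insert_erase hvT, h3]
    have hsum : ∀ T0 ∈ Sv, ∀ φ : Finset E → ℝ, ∑ T ∈ Sv.filter (fun T => sp T = sp T0), φ T =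
        ∑ σ ∈ Sx S k (sp T0), φ (insert v σ) := by
      intro T0 h0 φ
      obtain ⟨b1, b2, -, -, -⟩ := hH T0 h0
      have nv : ∀ σ ∈ Sx S k (sp T0), v ∉ σ := fun σ hσ h =>
        b1 ((mem_Sx.mp hσ).2.2 ▸ subset_affineSpan ℝ _ h)
      refine sum_bij' (fun T _ => T.erase v) (fun σ _ => insert v σ) ?_ ?_ ?_ ?_ ?_
      · intro T hT
        obtain ⟨hT, e⟩ := mem_filter.mp hT
        exact e ▸ (hH T hT).2.2.2.1
      · intro σ hσ
        obtain ⟨h1, h2, h3⟩ := mem_Sx.mp hσ
        refine mem_filter.mpr ⟨mem_filter.mpr ⟨mem_Sx.mpr ⟨insert_subset hvS h1,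
          by rw [card_insert_of_notMem (nv σ hσ), h2], ?_⟩, mem_insert_self _ _⟩, ?_⟩
        · rw [coe_insert, ← affineSpan_insert_affineSpan, h3, b2]
        · simp only [sp]; rw [erase_insert (nv σ hσ), h3]
      · intro T hT
        exact insert_erase (mem_filter.mp (mem_filter.mp hT).1).2
      · intro σ hσ; exact erase_insert (nv σ hσ)
      · intro T hT
        rw [insert_erase (mem_filter.mp (mem_filter.mp hT).1).2]
    have cone : ∀ T0 ∈ Sv, ∀ σ ∈ Sx S k (sp T0), ∀ p ∈ sp T0, ∀ t : ℝ, t ≠ 0 →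
        ind (insert v σ) (v + t • (p - v)) = (if 0 < t ∧ t ≤ 1 then 1 else 0) * ind σ p := by
      intro T0 h0 σ hσ p hp t ht
      obtain ⟨b1, -, -, -, -⟩ := hH T0 h0
      obtain ⟨f, c, h1, h2⟩ := sepf _ b1
      obtain ⟨-, s2, s3⟩ := mem_Sx.mp hσ
      have := ray_mem (card_pos.mp (by omega)) f c h1 (s3 ▸ h2) (fun h => b1 (h ▸ hp)) ht
        (σ := σ)
      simp only [h2 p hp, sub_zero, mul_one, inv_one, one_smul, add_sub_cancel] at this
      simp only [ind, Set.indicator_apply, this]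
      by_cases c1 : 0 < t ∧ t ≤ 1 <;> by_cases c2 : p ∈ convexHull ℝ (σ : Set E) <;>
        simp [c1, c2, -and_assoc]
    have jump : ∀ T0 ∈ Sv, ∀ᶠ p in gen (sp T0 : Set E),
        ∃ z : ℤ, ∑ σ ∈ Sx S k (sp T0), a (insert v σ) * ind σ p = z := by
      intro T0 h0
      obtain ⟨b1, b2, b3, b4, p0, hp0⟩ := hH T0 h0
      have hp0' : p0 ∈ sp T0 := subset_affineSpan ℝ _ hp0
      have g1 := push hp0' b1 (R := fun x => ∃ z : ℤ, ∑ T ∈ Sv, a T * ind T x = z) (by
        rw [b2]
        filter_upwards [h, ha] with x h1 h2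
        rwa [← h2])
      have g2 : ∀ᶠ p in gen (sp T0 : Set E), ∀ T ∈ Sv, sp T ≠ sp T0 → ∀ᶠ t in 𝓝 (1 : ℝ),
          ind T (v + t • (p - v)) = ind T p := by
        refine (eventually_all_finset Sv).mpr fun T hT => ?_
        by_cases hne : sp T = sp T0
        · exact Eventually.of_forall fun p h => absurd hne h
        obtain ⟨d1, d2, d3, d4, d5⟩ := hH T hT
        obtain ⟨f, c, h1, h2⟩ := sepf _ d1
        obtain ⟨f0, c0, k1, k2⟩ := sepf _ b1
        obtain ⟨q0, hq0⟩ := d5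
        have hq0' : q0 ∈ sp T := subset_affineSpan ℝ _ hq0
        have : ∃ q ∈ sp T0, f q ≠ c := by
          by_contra hc
          push Not at hc
          apply hne
          have l1 : sp T0 ≤ sp T := fun x hx => by
            obtain ⟨q, hq, e⟩ := decomp hq0' f c h1 h2 (x := x) (by
              rw [d2, ← b2]; exact subset_affineSpan ℝ _ (Set.mem_insert_of_mem _ hx))
            rw [e, hc x hx]; simpa using hq
          refine le_antisymm (fun x hx => ?_) l1
          obtain ⟨q, hq, e⟩ := decomp hp0' f0 c0 k1 k2 (x := x) (by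
            rw [b2, ← d2]; exact subset_affineSpan ℝ _ (Set.mem_insert_of_mem _ hx))
          have e2 := congrArg f e
          rw [map_add, map_smul, map_sub, smul_eq_mul, hc q hq, hc p0 hp0'] at e2
          have : f0 x - c0 = 0 := by linear_combination h2 x hx - e2 - (f0 x - c0) * h1
          rw [e, this]; simpa using hq
        obtain ⟨q, hq, hq'⟩ := this
        filter_upwards [ev_ne f c hq hq', ev_mem _] with p hp hpH _
        have hpv : p ≠ v := fun h => b1 (h ▸ hpH)
        have eT : T = insert v (T.erase v) := (insert_erase (mem_filter.mp hT).2).symm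
        have r1 := ray_mem ⟨q0, hq0⟩ f c h1 h2 hpv one_ne_zero
        rw [one_smul, add_sub_cancel, one_mul] at r1
        set κ := 1 - (f p - c) with hκ
        have k1 : κ ≠ 1 := fun h => hp (by linarith)
        have ev : ∀ᶠ t in 𝓝 (1 : ℝ), 0 < t ∧ (t * κ ≤ 1 ↔ κ ≤ 1) := by
          refine (eventually_gt_nhds one_pos).and ?_
          rcases lt_or_gt_of_ne k1 with c1 | c1
          · exact (ContinuousAt.eventually_lt (x₀ := (1 : ℝ)) (f := fun t => t * κ)
              (g := fun _ => 1) (by fun_prop) (by fun_prop) (by simpa using c1)).mono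
              fun t ht => iff_of_true ht.le c1.le
          · exact (ContinuousAt.eventually_lt (x₀ := (1 : ℝ)) (g := fun t => t * κ)
              (f := fun _ => 1) (by fun_prop) (by fun_prop) (by simpa using c1)).mono
              fun t ht => iff_of_false (not_le.mpr ht) (not_le.mpr c1)
        filter_upwards [ev] with t ht
        rw [eT]
        simp only [ind, Set.indicator_apply]
        refine if_congr ?_ rfl rfl
        rw [ray_mem ⟨q0, hq0⟩ f c h1 h2 hpv ht.1.ne', r1, ← hκ, ht.2, mul_pos_iff_of_pos_left ht.1]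
      filter_upwards [g1, g2, ev_mem _] with p p1 p2 hp
      have p3 : ∀ᶠ t in 𝓝 (1 : ℝ), 0 < t ∧ ∀ T ∈ Sv, sp T ≠ sp T0 →
          ind T (v + t • (p - v)) = ind T p :=
        (eventually_gt_nhds one_pos).and ((eventually_all_finset Sv).mpr fun T hT => by
          by_cases hne : sp T = sp T0
          · exact Eventually.of_forall fun p h => absurd hne h
          · exact (p2 T hT hne).mono fun t ht _ => ht)
      have val : ∀ t : ℝ, (0 < t ∧ ∀ T ∈ Sv, sp T ≠ sp T0 → ind T (v + t • (p - v)) = ind T p) →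
          ∑ T ∈ Sv, a T * ind T (v + t • (p - v)) =
            (if t ≤ 1 then 1 else 0) * ∑ σ ∈ Sx S k (sp T0), a (insert v σ) * ind σ p +
            ∑ T ∈ Sv.filter (fun T => ¬ sp T = sp T0), a T * ind T p := by
        intro t ht
        rw [← sum_filter_add_sum_filter_not Sv (fun T => sp T = sp T0), hsum T0 h0, mul_sum]
        congr 1
        · refine sum_congr rfl fun σ hσ => ?_
          rw [cone T0 h0 σ hσ p hp t ht.1.ne']
          simp [ht.1]
        · exact sum_congr rfl fun T hT => by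
            rw [ht.2 T (mem_filter.mp hT).1 (mem_filter.mp hT).2]
      have n1 : 𝓝[<] (1 : ℝ) ≤ cofinite :=
        (nhdsWithin_mono _ fun x hx => ne_of_lt hx).trans (nhdsNE_le_cofinite 1)
      have n2 : 𝓝[>] (1 : ℝ) ≤ cofinite :=
        (nhdsWithin_mono _ fun x hx => ne_of_gt hx).trans (nhdsNE_le_cofinite 1)
      obtain ⟨t1, ⟨⟨z1, e1⟩, e2⟩, e3⟩ := (((p1.filter_mono n1).and
        (p3.filter_mono nhdsWithin_le_nhds)).and self_mem_nhdsWithin).exists
      obtain ⟨t2, ⟨⟨z2, f1⟩, f2⟩, f3⟩ := (((p1.filter_mono n2).and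
        (p3.filter_mono nhdsWithin_le_nhds)).and self_mem_nhdsWithin).exists
      rw [val t1 e2, if_pos (le_of_lt e3)] at e1
      rw [val t2 f2, if_neg (not_le.mpr f3)] at f1
      exact ⟨z1 - z2, by push_cast; linarith⟩
    have : ∀ H : AffineSubspace ℝ E, ∃ n : Finset E → ℤ, ∀ T0 ∈ Sv, sp T0 = H →
        ∀ᶠ p in gen (H : Set E), ∑ σ ∈ Sx S k H, a (insert v σ) * ind σ p =
          ∑ σ ∈ Sx S k H, (n σ : ℝ) * ind σ p := by
      intro H
      by_cases hex : ∃ T0 ∈ Sv, sp T0 = H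
      · obtain ⟨T0, h0, rfl⟩ := hex
        obtain ⟨n, hn⟩ := ih (sp T0) (hH T0 h0).2.2.1 _ (jump T0 h0)
        exact ⟨n, fun _ _ _ => hn⟩
      · exact ⟨0, fun T0 h0 e => absurd ⟨T0, h0, e⟩ hex⟩
    choose N hN using this
    refine ⟨fun T => if v ∈ T then N (sp T) (T.erase v) else 0, ?_⟩
    have g : ∀ᶠ x in gen (A : Set E), ∀ T0 ∈ Sv,
        ∑ T ∈ Sv.filter (fun T => sp T = sp T0), a T * ind T x =
        ∑ T ∈ Sv.filter (fun T => sp T = sp T0), (N (sp T) (T.erase v) : ℝ) * ind T x := by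
      refine (eventually_all_finset Sv).mpr fun T0 h0 => ?_
      obtain ⟨b1, b2, b3, b4, p0, hp0⟩ := hH T0 h0
      have := pull (subset_affineSpan ℝ _ hp0) b1 (hN _ T0 h0 rfl)
      rw [b2] at this
      filter_upwards [this] with x ⟨t, p, hp, ht, e, hQ⟩
      rw [sum_congr rfl (g := fun T => (N (sp T0) (T.erase v) : ℝ) * ind T x)
        (s₁ := Sv.filter (fun T => sp T = sp T0)) (f := fun T => (N (sp T) (T.erase v) : ℝ) * ind T x)
        fun T hT => by rw [(mem_filter.mp hT).2], hsum T0 h0, hsum T0 h0, e]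
      have nv : ∀ σ ∈ Sx S k (sp T0), v ∉ σ := fun σ hσ h =>
        b1 ((mem_Sx.mp hσ).2.2 ▸ subset_affineSpan ℝ _ h)
      rw [sum_congr rfl fun σ hσ => by rw [cone T0 h0 σ hσ p hp t ht, mul_left_comm],
        ← mul_sum, hQ, mul_sum]
      exact sum_congr rfl fun σ hσ => by
        rw [cone T0 h0 σ hσ p hp t ht, erase_insert (nv σ hσ), mul_left_comm]
    filter_upwards [ha, g] with x h1 h2
    rw [h1]
    have : ∑ T ∈ Sx S (k + 1) A, ((if v ∈ T then N (sp T) (T.erase v) else 0 : ℤ) : ℝ) * ind T x =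
        ∑ T ∈ Sv, (N (sp T) (T.erase v) : ℝ) * ind T x := by
      rw [hSv, sum_filter]
      exact sum_congr rfl fun T _ => by split_ifs <;> simp
    rw [this, ← sum_fiberwise_of_maps_to (s := Sv) (t := Sv.image sp) (g := sp)
      (fun T hT => mem_image_of_mem _ hT), ← sum_fiberwise_of_maps_to (s := Sv)
      (t := Sv.image sp) (g := sp) (fun T hT => mem_image_of_mem _ hT)]
    refine sum_congr rfl fun H hH' => ?_
    obtain ⟨T0, h0, rfl⟩ := mem_image.mp hH'
    exact h2 T0 h0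

end Pool.Agent.H.MP_8bc176_co
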